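import Pool.Agent.Y546.WQ.Stm6

/-!
# The field of `p`-th roots of unity over a number field in which `p` is inert (helper700)
-/

set_option autoImplicit false

namespace Pool.Agent.Y700.WQ

open NumberField Polynomial Pool.Agent.Y546.WQ

/-- the cyclotomic polynomial is irreducible over `K` -/
theorem irr (p : ℕ) [hp : Fact p.Prime] (K : Type) [Field K] [NumberField K]
    (hP : (Ideal.span {((p : ℕ) : 𝓞 K)}).IsPrime) : Irreducible (cyclotomic p K) := by
  have hE := cyclotomic_comp_X_add_one_isEisensteinAt p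
  set f : ℤ[X] := (cyclotomic p ℤ).comp (X + 1) with hf
  have hfm : f.Monic := by
    have h1 : (X + 1 : ℤ[X]) = X + C 1 := by simp
    rw [hf, h1]
    exact (cyclotomic.monic p ℤ).comp (monic_X_add_C 1) (by
      rw [natDegree_X_add_C]; exact one_ne_zero)
  set g : (𝓞 K)[X] := f.map (Int.castRingHom (𝓞 K)) with hg
  have hgm : g.Monic := hfm.map _
  have hdeg : g.natDegree = f.natDegree := hfm.natDegree_map _
  have hfd : f.natDegree = p - 1 := by
    rw [hf, natDegree_comp, natDegree_cyclotomic, Nat.totient_prime hp.1]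
    have h1 : (X + 1 : ℤ[X]) = X + C 1 := by simp
    rw [h1, natDegree_X_add_C, mul_one]
  have hp0 : ((p : ℕ) : 𝓞 K) ≠ 0 := by exact_mod_cast hp.1.ne_zero
  have hf0 : f.coeff 0 = p := by
    rw [coeff_zero_eq_eval_zero, hf, eval_comp]
    simp
  have hgE : g.IsEisensteinAt (Ideal.span {((p : ℕ) : 𝓞 K)}) := by
    refine ⟨?_, ?_, ?_⟩
    · rw [hgm.leadingCoeff]
      exact fun h => hP.ne_top ((Ideal.eq_top_iff_one _).2 h)
    · intro n hn
      rw [hdeg] at hn
      have h1 := hE.mem hn
      rw [hg, coeff_map]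
      have h2 : (p : ℤ) ∣ f.coeff n := by
        rw [← Ideal.mem_span_singleton]
        exact h1
      obtain ⟨c, hc⟩ := h2
      rw [hc, map_mul]
      refine Ideal.mul_mem_right _ _ ?_
      rw [Ideal.mem_span_singleton]
      simp
    · rw [hg, coeff_map, hf0, Ideal.span_singleton_pow, Ideal.mem_span_singleton]
      rintro ⟨c, hc⟩
      have h1 : ((p : ℕ) : 𝓞 K) * 1 = ((p : ℕ) : 𝓞 K) * (((p : ℕ) : 𝓞 K) * c) := by
        have h2 : (Int.castRingHom (𝓞 K)) ((p : ℕ) : ℤ) = ((p : ℕ) : 𝓞 K) := by simp
        rw [h2] at hc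
        rw [mul_one]
        nth_rewrite 1 [hc]
        ring
      have h2 := mul_left_cancel₀ hp0 h1
      refine hP.ne_top ((Ideal.eq_top_iff_one _).2 ?_)
      rw [h2]
      exact Ideal.mul_mem_right _ _ (Ideal.mem_span_singleton_self _)
  have hgirr : Irreducible g :=
    hgE.irreducible hP hgm.isPrimitive (by
      rw [hdeg, hfd]
      have := hp.1.two_le
      omega)
  have h3 : Irreducible (g.map (algebraMap (𝓞 K) K)) :=
    (hgm.irreducible_iff_irreducible_map_fraction_map (K := K)).1 hgirr
  have h4 : g.map (algebraMap (𝓞 K) K) = (cyclotomic p K).comp (X + C 1) := by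
    rw [hg, Polynomial.map_map, hf, Polynomial.map_comp, map_cyclotomic]
    simp
  rw [h4] at h3
  have h5 : (algEquivAevalXAddC (1 : K)) (cyclotomic p K) = (cyclotomic p K).comp (X + C 1) := by
    simp [algEquivAevalXAddC, comp, aeval_def]
  rw [← h5] at h3
  exact (MulEquiv.irreducible_iff (algEquivAevalXAddC (1 : K))).1 h3

theorem mainKA : S_KA := by
  intro p hp hp2 K _ _ hP
  have : NeZero p := ⟨hp.1.ne_zero⟩
  have : NeZero ((p : ℕ) : K) := ⟨by exact_mod_cast hp.1.ne_zero⟩
  have hirr := irr p K hP
  have hC : IsCyclotomicExtension {p} K (CyclotomicField p K) :=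
    CyclotomicField.isCyclotomicExtension p K
  have hN : NumberField (CyclotomicField p K) :=
    IsCyclotomicExtension.numberField {p} K (CyclotomicField p K)
  have hz : IsPrimitiveRoot (IsCyclotomicExtension.zeta p K (CyclotomicField p K)) p :=
    IsCyclotomicExtension.zeta_spec p K (CyclotomicField p K)
  let e : (CyclotomicField p K ≃ₐ[K] CyclotomicField p K) ≃* (ZMod p)ˣ :=
    IsCyclotomicExtension.autEquivPow (CyclotomicField p K) hirr
  have hG : IsGalois K (CyclotomicField p K) :=
    IsCyclotomicExtension.isGalois {p} K (CyclotomicField p K)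
  refine ⟨CyclotomicField p K, inferInstance, hN, inferInstance,
    IsCyclotomicExtension.zeta p K (CyclotomicField p K), e.symm.toMonoidHom, hz, ?_, ?_, ?_, ?_⟩
  · intro t
    have h := hz.autToPow_spec K (e.symm t)
    have h2 : hz.autToPow K (e.symm t) = t := e.apply_symm_apply t
    rw [h2] at h
    exact h.symm
  · intro x
    have h1 := IsCyclotomicExtension.adjoin_primitive_root_eq_top (A := K) hz
    have h2 : x ∈ (Polynomial.aeval (R := K)
        (IsCyclotomicExtension.zeta p K (CyclotomicField p K))).range := by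
      rw [← Algebra.adjoin_singleton_eq_range_aeval, h1]
      exact Algebra.mem_top
    obtain ⟨f, hf⟩ := h2
    exact ⟨f, hf.symm⟩
  · intro x hx
    have h1 : x ∈ (⊥ : IntermediateField K (CyclotomicField p K)) := by
      rw [IsGalois.mem_bot_iff_fixed]
      intro τ
      have h2 := hx (e τ)
      have h3 : e.symm.toMonoidHom (e τ) = τ := e.symm_apply_apply τ
      rw [h3] at h2
      exact h2
    rw [IntermediateField.mem_bot] at h1
    obtain ⟨a, ha⟩ := h1
    exact ⟨a, ha⟩
  · rw [IsCyclotomicExtension.finrank (CyclotomicField p K) hirr, Nat.totient_prime hp.1]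

end Pool.Agent.Y700.WQ
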